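import Pool.Agent.W711.SCP.Lp

set_option autoImplicit false

open scoped ENNReal
open TopologicalSpace

namespace Pool.Agent.W711.SCP

/-- The separable complementation property. -/
def HasSCP (X : Type) [NormedAddCommGroup X] [NormedSpace ℝ X] : Prop :=
  ∀ S : Submodule ℝ X, IsSeparable (S : Set X) →
    ∃ T : Submodule ℝ X, S ≤ T ∧ IsSeparable (T : Set X) ∧ T.ClosedComplemented

/-- Every separable subspace is fixed pointwise by a bounded operator with separable range. -/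
def HasLocId (Y : Type) [NormedAddCommGroup Y] [NormedSpace ℝ Y] : Prop :=
  ∀ S : Submodule ℝ Y, IsSeparable (S : Set Y) →
    ∃ R : Y →L[ℝ] Y, IsSeparable (Set.range R) ∧ ∀ s ∈ S, R s = s

section basic

variable {X Y : Type} [NormedAddCommGroup X] [NormedSpace ℝ X] [NormedAddCommGroup Y]
  [NormedSpace ℝ Y]

theorem locId_of_scp (h : HasSCP X) (Z : Submodule ℝ X) (hZ : Z.ClosedComplemented) :
    HasLocId Z := by
  intro S hS
  obtain ⟨π, hπ⟩ := hZ
  obtain ⟨T, hST, hT, f, hf⟩ := h (S.map Z.subtype) (by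
    rw [Submodule.map_coe]
    exact hS.image continuous_subtype_val)
  refine ⟨π.comp (T.subtypeL.comp (f.comp Z.subtypeL)), ?_, ?_⟩
  · refine (hT.image π.continuous).mono ?_
    rintro _ ⟨z, rfl⟩
    exact ⟨_, (f z).2, rfl⟩
  · intro s hs
    have h1 : (s : X) ∈ T := hST ⟨s, hs, rfl⟩
    have h2 : f (s : X) = ⟨(s : X), h1⟩ := hf ⟨(s : X), h1⟩
    change π ((f (s : X) : T) : X) = s
    rw [h2]
    exact hπ s

theorem scp_transfer (e : Y ≃L[ℝ] X) (h : HasSCP X) : HasSCP Y := by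
  intro S hS
  obtain ⟨T, hST, hT, f, hf⟩ := h (S.map e.toLinearEquiv.toLinearMap) (by
    rw [Submodule.map_coe]
    exact hS.image e.continuous)
  have hpre : ((T.comap e.toLinearEquiv.toLinearMap : Submodule ℝ Y) : Set Y) =
      e.symm '' (T : Set X) := by
    ext x
    constructor
    · intro hx
      exact ⟨e x, hx, e.symm_apply_apply x⟩
    · rintro ⟨z, hz, rfl⟩
      change e (e.symm z) ∈ T
      rw [e.apply_symm_apply]
      exact hz
  refine ⟨T.comap e.toLinearEquiv.toLinearMap, ?_, ?_, ?_⟩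
  · intro x hx
    exact hST ⟨x, hx, rfl⟩
  · rw [hpre]
    exact hT.image e.symm.continuous
  · let g : Y →L[ℝ] Y := e.symm.toContinuousLinearMap.comp
      (T.subtypeL.comp (f.comp e.toContinuousLinearMap))
    have hg : ∀ y, g y ∈ T.comap e.toLinearEquiv.toLinearMap := by
      intro y
      change e (e.symm ((f (e y) : T) : X)) ∈ T
      rw [e.apply_symm_apply]
      exact (f (e y)).2
    refine ⟨g.codRestrict _ hg, ?_⟩
    rintro ⟨y, hy⟩
    apply Subtype.ext
    change e.symm ((f (e y) : T) : X) = y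
    have h1 : e y ∈ T := hy
    have h2 : f (e y) = ⟨e y, h1⟩ := hf ⟨e y, h1⟩
    rw [h2]
    exact e.symm_apply_apply y

end basic

section main

variable (Y : Type) [NormedAddCommGroup Y] [NormedSpace ℝ Y]

/-- the index set: pairs of a closed separable subspace and a real number -/
abbrev Idx : Type :=
  {V : Submodule ℝ Y // IsClosed (V : Set Y) ∧ IsSeparable (V : Set Y)} × ℝ

/-- the summands -/
abbrev Fam (i : Idx Y) : Type := i.1.1

instance (i : Idx Y) : SeparableSpace (Fam Y i) := i.1.2.2.separableSpace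

instance [CompleteSpace Y] (i : Idx Y) : CompleteSpace (Fam Y i) :=
  i.1.2.1.completeSpace_coe

variable {Y}

theorem scp_prod [CompleteSpace Y] (h : HasLocId Y) : HasSCP (Y × lp (Fam Y) 1) := by
  classical
  intro S hS
  obtain ⟨J, hJ, hJS⟩ := exists_supp (Prod.snd '' (S : Set (Y × lp (Fam Y) 1)))
    (hS.image continuous_snd)
  let W : Submodule ℝ Y := S.map (LinearMap.fst ℝ Y (lp (Fam Y) 1))
  have hW : IsSeparable (W : Set Y) := by
    rw [Submodule.map_coe]
    exact hS.image continuous_fst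
  obtain ⟨R, hR, hRW⟩ := h W hW
  let V : Submodule ℝ Y := (Submodule.span ℝ ((W : Set Y) ∪ Set.range R)).topologicalClosure
  have hVs : IsSeparable (V : Set Y) := (((hW.union hR).span (R := ℝ))).closure
  have hVc : IsClosed (V : Set Y) := Submodule.isClosed_topologicalClosure _
  have hWV : W ≤ V := fun w hw =>
    Submodule.le_topologicalClosure _ (Submodule.subset_span (Or.inl hw))
  have hRV : ∀ y, R y ∈ V := fun y =>
    Submodule.le_topologicalClosure _ (Submodule.subset_span (Or.inr ⟨y, rfl⟩))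
  obtain ⟨r, hr⟩ : ∃ r : ℝ, ((⟨V, hVc, hVs⟩, r) : Idx Y) ∉ J := by
    by_contra hcon
    push Not at hcon
    have h1 : ((fun r : ℝ => ((⟨V, hVc, hVs⟩, r) : Idx Y)) ⁻¹' J).Countable :=
      hJ.preimage fun a b hab => (Prod.mk.injEq _ _ _ _ ▸ hab).2
    have h2 : ((fun r : ℝ => ((⟨V, hVc, hVs⟩, r) : Idx Y)) ⁻¹' J) = Set.univ :=
      Set.eq_univ_of_forall hcon
    rw [h2] at h1
    exact Cardinal.not_countable_real h1
  set i₀ : Idx Y := (⟨V, hVc, hVs⟩, r) with hi₀
  -- the evaluation at the new coordinate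
  let ev : Y × lp (Fam Y) 1 →L[ℝ] V :=
    (lp.evalCLM ℝ (Fam Y) 1 i₀).comp (ContinuousLinearMap.snd ℝ Y (lp (Fam Y) 1))
  let R' : Y →L[ℝ] V := R.codRestrict V hRV
  let a : Y × lp (Fam Y) 1 →L[ℝ] V :=
    R'.comp (ContinuousLinearMap.fst ℝ Y (lp (Fam Y) 1)) + ev
  let b : V →L[ℝ] V := ContinuousLinearMap.id ℝ V - R'.comp V.subtypeL
  let sg : V →L[ℝ] lp (Fam Y) 1 := lp.singleContinuousLinearMap ℝ (Fam Y) 1 i₀
  let P : Y × lp (Fam Y) 1 →L[ℝ] Y × lp (Fam Y) 1 :=
    (V.subtypeL.comp a).prod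
      ((cut J).comp (ContinuousLinearMap.snd ℝ Y (lp (Fam Y) 1)) + sg.comp (b.comp a))
  have hP1 : ∀ x, (P x).1 = R x.1 + ((x.2 i₀ : V) : Y) := fun x => rfl
  have hP2 : ∀ x i, i ≠ i₀ → (P x).2 i = cut J x.2 i := by
    intro x i hi
    change ((cut J x.2 + lp.single (E := Fam Y) 1 i₀ (b (a x)) : lp (Fam Y) 1)) i = _
    rw [lp.coeFn_add, Pi.add_apply, lp.single_apply_ne _ _ _ hi, add_zero]
  have hP3 : ∀ x, (((P x).2 i₀ : V) : Y) = (P x).1 - R (P x).1 := by
    intro x
    change ((((cut J x.2 + lp.single (E := Fam Y) 1 i₀ (b (a x)) : lp (Fam Y) 1)) i₀ : V) : Y) = _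
    rw [lp.coeFn_add, Pi.add_apply, lp.single_apply_self, cut_apply_not_mem _ hr, zero_add]
    rfl
  let T : Submodule ℝ (Y × lp (Fam Y) 1) :=
    { carrier := {x | x.1 ∈ V ∧ ((x.2 i₀ : V) : Y) = x.1 - R x.1 ∧
        ∀ i, i ∉ insert i₀ J → x.2 i = 0}
      add_mem' := by
        rintro x y ⟨hx1, hx2, hx3⟩ ⟨hy1, hy2, hy3⟩
        refine ⟨V.add_mem hx1 hy1, ?_, fun i hi => ?_⟩
        · rw [Prod.snd_add, lp.coeFn_add, Pi.add_apply, Submodule.coe_add, hx2, hy2,
            Prod.fst_add, map_add]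
          abel
        · rw [Prod.snd_add, lp.coeFn_add, Pi.add_apply, hx3 i hi, hy3 i hi, add_zero]
      zero_mem' := by
        refine ⟨V.zero_mem, ?_, fun i hi => ?_⟩
        · simp
        · simp
      smul_mem' := by
        rintro c x ⟨hx1, hx2, hx3⟩
        refine ⟨V.smul_mem c hx1, ?_, fun i hi => ?_⟩
        · rw [Prod.smul_snd, lp.coeFn_smul, Pi.smul_apply, Submodule.coe_smul, hx2,
            Prod.smul_fst, map_smul, smul_sub]
        · rw [Prod.smul_snd, lp.coeFn_smul, Pi.smul_apply, hx3 i hi, smul_zero] }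
  have hTmem : ∀ x, x ∈ T ↔ x.1 ∈ V ∧ ((x.2 i₀ : V) : Y) = x.1 - R x.1 ∧
        ∀ i, i ∉ insert i₀ J → x.2 i = 0 := fun x => Iff.rfl
  have hPT : ∀ x, P x ∈ T := by
    intro x
    refine ⟨?_, hP3 x, fun i hi => ?_⟩
    · rw [hP1]
      exact V.add_mem (hRV _) (x.2 i₀ : V).2
    · rw [Set.mem_insert_iff, not_or] at hi
      rw [hP2 x i hi.1, cut_apply_not_mem _ hi.2]
  refine ⟨T, ?_, ?_, ⟨P.codRestrict T hPT, ?_⟩⟩
  · intro s hs
    have hs1 : s.1 ∈ W := ⟨s, hs, rfl⟩
    have hs2 : ∀ i ∉ J, s.2 i = 0 := hJS s.2 ⟨s, hs, rfl⟩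
    refine ⟨hWV hs1, ?_, fun i hi => ?_⟩
    · rw [hs2 i₀ hr, hRW _ hs1, sub_self]
      rfl
    · rw [Set.mem_insert_iff, not_or] at hi
      exact hs2 i hi.2
  · have h1 : IsSeparable ((V : Set Y) ×ˢ {z : lp (Fam Y) 1 | ∀ i ∉ insert i₀ J, z i = 0}) :=
      hVs.prod (isSeparable_supp _ (hJ.insert i₀))
    refine h1.mono ?_
    rintro x ⟨hx1, -, hx3⟩
    exact ⟨hx1, hx3⟩
  · rintro ⟨x, hx1, hx2, hx3⟩
    apply Subtype.ext
    change P x = x
    have e1 : (P x).1 = x.1 := by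
      rw [hP1, hx2]
      abel
    apply Prod.ext e1
    apply lp.ext
    funext i
    by_cases hi : i = i₀
    · subst hi
      apply Subtype.ext
      have := hP3 x
      rw [e1, ← hx2] at this
      exact this
    · rw [hP2 x i hi]
      by_cases hiJ : i ∈ J
      · rw [cut_apply_mem _ hiJ]
      · rw [cut_apply_not_mem _ hiJ]
        exact (hx3 i (by
          rw [Set.mem_insert_iff, not_or]
          exact ⟨hi, hiJ⟩)).symm

end main

end Pool.Agent.W711.SCP
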