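import Pool.Agent.W711.SCP.Idem

set_option autoImplicit false

open scoped ENNReal Topology
open TopologicalSpace Filter

namespace Pool.Agent.W711.SCP

section first

variable (Y L : Type) [NormedAddCommGroup Y] [NormedSpace ℝ Y] [NormedAddCommGroup L]
  [NormedSpace ℝ L]

/-- the copy of `Y` in `Y × L` -/
def fstSub : Submodule ℝ (Y × L) := (⊤ : Submodule ℝ Y).prod ⊥

variable {Y L}

theorem mem_fstSub {x : Y × L} : x ∈ fstSub Y L ↔ x.2 = 0 := by
  unfold fstSub
  rw [Submodule.mem_prod]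
  simp

theorem fstSub_compl : (fstSub Y L).ClosedComplemented := by
  refine ⟨((ContinuousLinearMap.inl ℝ Y L).comp (ContinuousLinearMap.fst ℝ Y L)).codRestrict _
    fun x => mem_fstSub.2 rfl, ?_⟩
  rintro ⟨⟨y, l⟩, hx⟩
  have hl : l = 0 := mem_fstSub.1 hx
  subst hl
  rfl

/-- the natural isomorphism of `Y` with its copy -/
def fstEquiv : Y ≃L[ℝ] fstSub Y L :=
  ContinuousLinearEquiv.equivOfInverse
    ((ContinuousLinearMap.inl ℝ Y L).codRestrict (fstSub Y L) fun _ => mem_fstSub.2 rfl)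
    ((ContinuousLinearMap.fst ℝ Y L).comp (fstSub Y L).subtypeL)
    (fun _ => rfl)
    (by
      rintro ⟨⟨y, l⟩, hx⟩
      have hl : l = 0 := mem_fstSub.1 hx
      subst hl
      rfl)

end first

theorem locId_transfer {X Y : Type} [NormedAddCommGroup X] [NormedSpace ℝ X]
    [NormedAddCommGroup Y] [NormedSpace ℝ Y] (e : Y ≃L[ℝ] X) (h : HasLocId X) : HasLocId Y := by
  intro S hS
  obtain ⟨R, hR, hRS⟩ := h (S.map e.toLinearEquiv.toLinearMap) (by
    rw [Submodule.map_coe]
    exact hS.image e.continuous)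
  refine ⟨e.symm.toContinuousLinearMap.comp (R.comp e.toContinuousLinearMap), ?_, ?_⟩
  · refine (hR.image e.symm.continuous).mono ?_
    rintro _ ⟨y, rfl⟩
    exact ⟨R (e y), ⟨e y, rfl⟩, rfl⟩
  · intro s hs
    change e.symm (R (e s)) = s
    rw [hRS (e s) ⟨s, hs, rfl⟩]
    exact e.symm_apply_apply s

/-- The statement of the question: complemented subspaces inherit the separable complementation
property. -/
def Question : Prop :=
  ∀ (X : Type) [NormedAddCommGroup X] [NormedSpace ℝ X] [CompleteSpace X], HasSCP X →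
    ∀ Y : Submodule ℝ X, Y.ClosedComplemented → HasSCP Y

theorem complemented_iff (Y : Type) [NormedAddCommGroup Y] [NormedSpace ℝ Y] [CompleteSpace Y] :
    (∃ (X : Type) (_ : NormedAddCommGroup X) (_ : NormedSpace ℝ X) (_ : CompleteSpace X),
      HasSCP X ∧ ∃ Z : Submodule ℝ X, Z.ClosedComplemented ∧ Nonempty (Y ≃L[ℝ] Z)) ↔
    HasLocId Y := by
  constructor
  · rintro ⟨X, _, _, _, hX, Z, hZ, ⟨e⟩⟩
    exact locId_transfer e (locId_of_scp hX Z hZ)
  · intro h
    exact ⟨Y × lp (Fam Y) 1, inferInstance, inferInstance, inferInstance, scp_prod h,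
      fstSub Y _, fstSub_compl, ⟨fstEquiv⟩⟩

theorem complete_of_compl {X : Type} [NormedAddCommGroup X] [NormedSpace ℝ X] [CompleteSpace X]
    (Y : Submodule ℝ X) (hY : Y.ClosedComplemented) : CompleteSpace Y :=
  hY.isClosed.completeSpace_coe

theorem question_iff :
    Question ↔ ∀ (Y : Type) [NormedAddCommGroup Y] [NormedSpace ℝ Y] [CompleteSpace Y],
      HasLocId Y → HasSCP Y := by
  constructor
  · intro hQ Y _ _ _ h
    exact scp_transfer (fstEquiv (L := lp (Fam Y) 1)) (hQ _ (scp_prod h) _ fstSub_compl)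
  · intro h X _ _ _ hX Y hY
    haveI := complete_of_compl Y hY
    exact h Y (locId_of_scp hX Y hY)

theorem question_iff_prod :
    Question ↔ ∀ (Y : Type) [NormedAddCommGroup Y] [NormedSpace ℝ Y] [CompleteSpace Y]
      (I : Type) (E : I → Type) [∀ i, NormedAddCommGroup (E i)] [∀ i, NormedSpace ℝ (E i)]
      [∀ i, CompleteSpace (E i)] [∀ i, SeparableSpace (E i)],
      HasSCP (Y × lp E 1) → HasSCP Y := by
  constructor
  · intro hQ Y _ _ _ I E _ _ _ _ h
    exact scp_transfer (fstEquiv (L := lp E 1)) (hQ _ h _ fstSub_compl)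
  · intro h X _ _ _ hX Y hY
    haveI := complete_of_compl Y hY
    exact h Y (Idx Y) (Fam Y) (scp_prod (locId_of_scp hX Y hY))

end Pool.Agent.W711.SCP
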