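import Pool.Agent.W711.SCP.Core

set_option autoImplicit false

open scoped ENNReal Topology
open TopologicalSpace Filter

namespace Pool.Agent.W711.SCP

section idem

variable {Y : Type} [NormedAddCommGroup Y] [NormedSpace ℝ Y]

/-- one step towards the idempotent -/
noncomputable def stp (A : Y →L[ℝ] Y) : Y →L[ℝ] Y := 3 • (A * A) - 2 • (A * A * A)

/-- the iteration -/
noncomputable def itr (R : Y →L[ℝ] Y) : ℕ → (Y →L[ℝ] Y)
  | 0 => R
  | n + 1 => stp (itr R n)

theorem stp_sub (A : Y →L[ℝ] Y) :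
    stp A - A = (A - A * A) * (2 • A - 1) := by
  unfold stp
  noncomm_ring

theorem stp_err (A : Y →L[ℝ] Y) :
    stp A - stp A * stp A = (A - A * A) * (A - A * A) * (3 • 1 + 4 • (A - A * A)) := by
  unfold stp
  noncomm_ring

theorem stp_two (A : Y →L[ℝ] Y) :
    2 • stp A - 1 = (1 + 2 • (A - A * A)) * (2 • A - 1) := by
  unfold stp
  noncomm_ring

theorem norm_one_le : ‖(1 : Y →L[ℝ] Y)‖ ≤ 1 := ContinuousLinearMap.norm_id_le

theorem nsmul_norm_le (n : ℕ) (A : Y →L[ℝ] Y) : ‖n • A‖ ≤ n * ‖A‖ := norm_nsmul_le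

theorem idem_of_quarter [CompleteSpace Y] (R : Y →L[ℝ] Y) (h : ‖R - R * R‖ < 1 / 4) :
    ∃ P : Y →L[ℝ] Y, P * P = P ∧ (∀ y, R y = y → P y = y) ∧
      Set.range P ⊆ closure (Set.range R) := by
  set e : ℕ → ℝ := fun n => ‖itr R n - itr R n * itr R n‖ with he
  set m : ℕ → ℝ := fun n => ‖2 • itr R n - 1‖ with hm
  have he0 : ∀ n, 0 ≤ e n := fun n => norm_nonneg _
  have hm0 : ∀ n, 0 ≤ m n := fun n => norm_nonneg _
  have hestep : ∀ n, e (n + 1) ≤ e n * e n * (3 + 4 * e n) := by
    intro n
    have h1 : itr R (n + 1) - itr R (n + 1) * itr R (n + 1) = _ := stp_err (itr R n)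
    simp only [he]
    rw [h1]
    refine (norm_mul_le _ _).trans ?_
    refine mul_le_mul (norm_mul_le _ _) ?_ (norm_nonneg _) (by positivity)
    refine (norm_add_le _ _).trans (add_le_add ?_ ?_)
    · refine (nsmul_norm_le 3 _).trans ?_
      push_cast
      linarith [norm_one_le (Y := Y)]
    · exact (nsmul_norm_le 4 _).trans (by push_cast; exact le_rfl)
  have hmstep : ∀ n, m (n + 1) ≤ (1 + 2 * e n) * m n := by
    intro n
    have h1 : 2 • itr R (n + 1) - 1 = _ := stp_two (itr R n)
    simp only [hm, he]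
    rw [h1]
    refine (norm_mul_le _ _).trans (mul_le_mul_of_nonneg_right ?_ (norm_nonneg _))
    refine (norm_add_le _ _).trans (add_le_add norm_one_le ?_)
    exact (nsmul_norm_le 2 _).trans (by push_cast; exact le_rfl)
  set q : ℝ := 4 * ‖R - R * R‖ with hq
  have hq0 : 0 ≤ q := by positivity
  have hq1 : q < 1 := by linarith
  have hbound : ∀ n, 4 * e n ≤ q ^ (n + 1) := by
    intro n
    induction n with
    | zero => simp [he, hq, itr]
    | succ n ih =>
      have h1 : q ^ (n + 1) ≤ 1 := pow_le_one₀ hq0 hq1.le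
      have h2 : 4 * e n ≤ 1 := ih.trans h1
      have h3 : 4 * e (n + 1) ≤ (4 * e n) * (4 * e n) := by
        have h4 := hestep n
        have h5 : e n * e n * (3 + 4 * e n) ≤ e n * e n * 4 :=
          mul_le_mul_of_nonneg_left (by linarith) (mul_nonneg (he0 n) (he0 n))
        nlinarith
      refine h3.trans ((mul_le_mul ih ih (by have := he0 n; positivity)
        (by positivity)).trans ?_)
      rw [← pow_add]
      exact pow_le_pow_of_le_one hq0 hq1.le (by omega)
  have hetend : Tendsto e atTop (𝓝 0) := by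
    have h1 : Tendsto (fun n : ℕ => q ^ (n + 1)) atTop (𝓝 0) :=
      (tendsto_pow_atTop_nhds_zero_of_lt_one hq0 hq1).comp (tendsto_add_atTop_nat 1)
    refine squeeze_zero he0 (fun n => ?_) h1
    linarith [hbound n, he0 n]
  have hsum : Summable (fun n => e n * m n) := by
    refine summable_of_ratio_norm_eventually_le (r := 1 / 2) (by norm_num) ?_
    have h1 : ∀ᶠ n in atTop, e n < 1 / 12 := hetend.eventually (gt_mem_nhds (by norm_num))
    filter_upwards [h1] with n hn
    rw [Real.norm_of_nonneg (mul_nonneg (he0 _) (hm0 _)),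
      Real.norm_of_nonneg (mul_nonneg (he0 _) (hm0 _))]
    have h2 : e (n + 1) ≤ e n * e n * 4 := by
      refine (hestep n).trans (mul_le_mul_of_nonneg_left (by linarith)
        (mul_nonneg (he0 n) (he0 n)))
    have h3 : m (n + 1) ≤ (3 / 2) * m n :=
      (hmstep n).trans (mul_le_mul_of_nonneg_right (by linarith) (hm0 n))
    have h4 : e (n + 1) * m (n + 1) ≤ (e n * e n * 4) * ((3 / 2) * m n) :=
      mul_le_mul h2 h3 (hm0 _) (by have := he0 n; positivity)
    have h5 : (e n * e n * 4) * ((3 / 2) * m n) = (6 * e n) * (e n * m n) := by ring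
    have h6 : (6 * e n) * (e n * m n) ≤ (1 / 2) * (e n * m n) :=
      mul_le_mul_of_nonneg_right (by linarith) (mul_nonneg (he0 n) (hm0 n))
    linarith
  have hcau : CauchySeq (itr R) := by
    refine cauchySeq_of_dist_le_of_summable (fun n => e n * m n) (fun n => ?_) hsum
    rw [dist_comm, dist_eq_norm]
    have h1 : itr R (n + 1) - itr R n = _ := stp_sub (itr R n)
    rw [Nat.succ_eq_add_one, h1]
    exact norm_mul_le _ _
  obtain ⟨P, hP⟩ := cauchySeq_tendsto_of_complete hcau
  have happ : ∀ y, Tendsto (fun n => itr R n y) atTop (𝓝 (P y)) := fun y =>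
    ((ContinuousLinearMap.apply ℝ Y y).continuous.tendsto P).comp hP
  refine ⟨P, ?_, ?_, ?_⟩
  · have h1 : Tendsto (fun n => itr R n - itr R n * itr R n) atTop (𝓝 (P - P * P)) :=
      hP.sub (hP.mul hP)
    have h2 : Tendsto (fun n => itr R n - itr R n * itr R n) atTop (𝓝 0) :=
      tendsto_zero_iff_norm_tendsto_zero.2 hetend
    have h3 := tendsto_nhds_unique h1 h2
    exact (sub_eq_zero.1 h3).symm
  · intro y hy
    have h1 : ∀ n, itr R n y = y := by
      intro n
      induction n with
      | zero => exact hy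
      | succ n ih =>
        change 3 • (itr R n (itr R n y)) - 2 • (itr R n (itr R n (itr R n y))) = y
        rw [ih, ih, ih]
        module
    have h2 := happ y
    simp only [h1] at h2
    exact (tendsto_nhds_unique h2 tendsto_const_nhds)
  · rintro _ ⟨y, rfl⟩
    have h1 : ∀ n, ∀ z, itr R n z ∈ Set.range R := by
      intro n
      induction n with
      | zero => exact fun z => ⟨z, rfl⟩
      | succ n ih =>
        intro z
        have h2 : itr R (n + 1) z = itr R n (itr R n (3 • z - 2 • itr R n z)) := by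
          change 3 • (itr R n (itr R n z)) - 2 • (itr R n (itr R n (itr R n z))) = _
          rw [map_sub, map_sub, map_nsmul, map_nsmul, map_nsmul, map_nsmul]
        rw [h2]
        exact ih _
    exact mem_closure_of_tendsto (happ y) (Eventually.of_forall fun n => h1 n y)

theorem scp_of_quarter [CompleteSpace Y]
    (h : ∀ S : Submodule ℝ Y, IsSeparable (S : Set Y) →
      ∃ R : Y →L[ℝ] Y, IsSeparable (Set.range R) ∧ (∀ s ∈ S, R s = s) ∧
        ‖R - R.comp R‖ < 1 / 4) : HasSCP Y := by
  intro S hS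
  obtain ⟨R, hR, hRS, hn⟩ := h S hS
  obtain ⟨P, hP1, hP2, hP3⟩ := idem_of_quarter R hn
  have hPP : ∀ y, P (P y) = P y := fun y => congrArg (fun A : Y →L[ℝ] Y => A y) hP1
  refine ⟨LinearMap.range P.toLinearMap, ?_, ?_, ⟨P.codRestrict _ fun y => ⟨y, rfl⟩, ?_⟩⟩
  · intro s hs
    exact ⟨s, hP2 s (hRS s hs)⟩
  · refine hR.closure.mono ?_
    rintro _ ⟨y, rfl⟩
    exact hP3 ⟨y, rfl⟩
  · rintro ⟨_, ⟨y, rfl⟩⟩
    apply Subtype.ext
    exact hPP y

end idem

section sep

variable {X : Type} [NormedAddCommGroup X] [NormedSpace ℝ X]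

/-- separable complements are harmless -/
theorem scp_of_separable_compl (h : HasSCP X) (Y : Submodule ℝ X) (π : X →L[ℝ] Y)
    (hπ : ∀ y : Y, π y = y) (hker : IsSeparable {x : X | π x = 0}) : HasSCP Y := by
  intro S hS
  let K : Submodule ℝ X := LinearMap.ker π.toLinearMap
  have hKset : (K : Set X) = {x : X | π x = 0} := by
    ext x
    exact LinearMap.mem_ker
  let S' : Submodule ℝ X := Submodule.span ℝ ((S.map Y.subtype : Set X) ∪ (K : Set X))
  have hS' : IsSeparable (S' : Set X) := by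
    refine IsSeparable.span (R := ℝ) (IsSeparable.union ?_ ?_)
    · rw [Submodule.map_coe]
      exact hS.image continuous_subtype_val
    · rw [hKset]
      exact hker
  obtain ⟨T, hST, hT, f, hf⟩ := h S' hS'
  have hKT : ∀ x, π x = 0 → x ∈ T := fun x hx =>
    hST (Submodule.subset_span (Or.inr (LinearMap.mem_ker.2 hx)))
  let g : Y →L[ℝ] Y := π.comp (T.subtypeL.comp (f.comp Y.subtypeL))
  have hg : ∀ y, g y ∈ T.comap Y.subtype := by
    intro y
    change ((π ((f (y : X) : T) : X) : Y) : X) ∈ T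
    have h1 : π (((f (y : X) : T) : X) - ((π ((f (y : X) : T) : X) : Y) : X)) = 0 := by
      rw [map_sub, hπ, sub_self]
    have h2 := T.sub_mem (f (y : X)).2 (hKT _ h1)
    rwa [sub_sub_cancel] at h2
  refine ⟨T.comap Y.subtype, ?_, ?_, ⟨g.codRestrict _ hg, ?_⟩⟩
  · intro s hs
    exact hST (Submodule.subset_span (Or.inl ⟨s, hs, rfl⟩))
  · refine (hT.image π.continuous).mono ?_
    intro y hy
    exact ⟨(y : X), hy, hπ y⟩
  · rintro ⟨y, hy⟩
    apply Subtype.ext
    change π ((f (y : X) : T) : X) = y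
    have h1 : (y : X) ∈ T := hy
    have h2 : f (y : X) = ⟨(y : X), h1⟩ := hf ⟨(y : X), h1⟩
    rw [h2]
    exact hπ y

end sep

end Pool.Agent.W711.SCP
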