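import Mathlib

set_option autoImplicit false

open scoped ENNReal
open TopologicalSpace

namespace Pool.Agent.W711.SCP

variable {I : Type} {E : I → Type} [∀ i, NormedAddCommGroup (E i)] [∀ i, NormedSpace ℝ (E i)]

/-- restriction of a family to a set of coordinates -/
noncomputable def cutFun (J : Set I) (z : lp E 1) : ∀ i, E i := by
  classical
  exact fun i => if i ∈ J then z i else 0

theorem cutFun_mem {J : Set I} {z : lp E 1} {i : I} (h : i ∈ J) : cutFun J z i = z i := by
  classical
  unfold cutFun
  rw [if_pos h]

theorem cutFun_not_mem {J : Set I} {z : lp E 1} {i : I} (h : i ∉ J) : cutFun J z i = 0 := by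
  classical
  unfold cutFun
  rw [if_neg h]

theorem norm_cutFun_le (J : Set I) (z : lp E 1) (i : I) : ‖cutFun J z i‖ ≤ ‖z i‖ := by
  by_cases h : i ∈ J
  · rw [cutFun_mem h]
  · rw [cutFun_not_mem h, norm_zero]
    exact norm_nonneg _

theorem summable_norm (z : lp E 1) : Summable fun i => ‖z i‖ := by
  have := (lp.memℓp z).summable (by simp)
  simpa using this

theorem cutFun_memℓp (J : Set I) (z : lp E 1) : Memℓp (cutFun J z) 1 := by
  refine memℓp_gen ?_
  simp only [ENNReal.toReal_one, Real.rpow_one]
  exact Summable.of_nonneg_of_le (fun _ => norm_nonneg _) (norm_cutFun_le J z) (summable_norm z)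

/-- the projection of the `ℓ¹` sum onto the coordinates in `J` -/
noncomputable def cut (J : Set I) : lp E 1 →L[ℝ] lp E 1 :=
  LinearMap.mkContinuous
    { toFun := fun z => ⟨cutFun J z, cutFun_memℓp J z⟩
      map_add' := by
        intro x y
        apply lp.ext
        funext i
        by_cases h : i ∈ J
        · simp [cutFun_mem h]
        · simp [cutFun_not_mem h]
      map_smul' := by
        intro c x
        apply lp.ext
        funext i
        by_cases h : i ∈ J
        · simp [cutFun_mem h]
        · simp [cutFun_not_mem h] } 1 (by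
    intro z
    rw [one_mul]
    refine lp.norm_le_of_tsum_le (by simp) (norm_nonneg _) ?_
    rw [lp.norm_eq_tsum_rpow (by simp)]
    simp only [ENNReal.toReal_one, Real.rpow_one, div_one]
    refine Summable.tsum_le_tsum (norm_cutFun_le J z) ?_ (summable_norm z)
    exact Summable.of_nonneg_of_le (fun _ => norm_nonneg _) (norm_cutFun_le J z)
      (summable_norm z))

theorem cut_apply_mem {J : Set I} (z : lp E 1) {i : I} (h : i ∈ J) : cut J z i = z i :=
  cutFun_mem h

theorem cut_apply_not_mem {J : Set I} (z : lp E 1) {i : I} (h : i ∉ J) : cut J z i = 0 :=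
  cutFun_not_mem h

/-- the elements supported on a countable set of coordinates, all of which are separable, form
a separable set -/
theorem isSeparable_supp [∀ i, SeparableSpace (E i)] (J : Set I) (hJ : J.Countable) :
    IsSeparable {z : lp E 1 | ∀ i ∉ J, z i = 0} := by
  classical
  let Q : Submodule ℝ (lp E 1) := (Submodule.span ℝ (⋃ i ∈ J,
    Set.range (lp.singleContinuousLinearMap ℝ E 1 i))).topologicalClosure
  have hQs : IsSeparable (Q : Set (lp E 1)) := by
    have h1 : IsSeparable (⋃ i ∈ J, Set.range (lp.singleContinuousLinearMap ℝ E 1 i)) := by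
      haveI : Countable J := hJ.to_subtype
      rw [Set.biUnion_eq_iUnion]
      refine IsSeparable.iUnion fun i => ?_
      rw [← Set.image_univ]
      exact (IsSeparable.of_separableSpace (Set.univ : Set (E i))).image
        (lp.singleContinuousLinearMap ℝ E 1 (i : I)).continuous
    exact (h1.span (R := ℝ)).closure
  have hQc : IsClosed (Q : Set (lp E 1)) := Submodule.isClosed_topologicalClosure _
  refine hQs.mono ?_
  intro z hz
  have hs : HasSum (fun j => lp.single (E := E) 1 j (z j)) z := lp.hasSum_single (by simp) _
  have hterm : ∀ j, lp.single (E := E) 1 j (z j) ∈ Q := by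
    intro j
    by_cases hj : j ∈ J
    · refine Submodule.le_topologicalClosure _ (Submodule.subset_span ?_)
      exact Set.mem_biUnion hj ⟨z j, rfl⟩
    · rw [hz j hj]
      have h0 : lp.single (E := E) 1 j (0 : E j) = 0 :=
        map_zero (lp.singleContinuousLinearMap ℝ E 1 j)
      rw [h0]
      exact Q.zero_mem
  exact hQc.mem_of_tendsto hs (Filter.Eventually.of_forall fun s =>
    Submodule.sum_mem _ (fun j _ => hterm j))

/-- a separable set lives on countably many coordinates -/
theorem exists_supp (A : Set (lp E 1)) (hA : IsSeparable A) :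
    ∃ J : Set I, J.Countable ∧ ∀ z ∈ A, ∀ i ∉ J, z i = 0 := by
  obtain ⟨c, hc, hAc⟩ := hA
  refine ⟨⋃ y ∈ c, {i | y i ≠ 0}, hc.biUnion fun y _ => ?_, ?_⟩
  · refine (summable_norm y).countable_support.mono ?_
    intro i hi
    simpa using hi
  · intro z hz i hi
    have hcl : IsClosed {y : lp E 1 | y i = 0} :=
      isClosed_eq (lp.evalCLM ℝ E 1 i).continuous continuous_const
    have hsub : c ⊆ {y : lp E 1 | y i = 0} := by
      intro y hy
      by_contra h
      exact hi (Set.mem_biUnion hy h)
    exact closure_minimal hsub hcl (hAc hz)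

end Pool.Agent.W711.SCP
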